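import Pool.Agent.H41.ET.Strong
import Pool.Agent.H41.ET.Res
import Pool.Agent.H16.ET.GK
import Pool.Agent.H870.ET.Star
import Pool.Agent.H484.ET.Assign
import Pool.Agent.H335.ET.Main
import Pool.Agent.H254.ET.CntA
import Pool.Agent.H105.ET.CntB
import Pool.Agent.H299.ET.CNTC
import Pool.Agent.H553.ET.Grp
import Pool.Agent.H224.ET.Pi
import Pool.Agent.H769.ET.Param2
import Pool.Agent.H546.ET.Glob
import Pool.Agent.H670.ET.Walk

set_option autoImplicit false

/-!
MP_fe131b_co: Jackson's conjecture on pairwise compatible Euler tours holds asymptotically: every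
Eulerian (multi)graph of minimum degree at least `2d` has at least `2d - O(d^(5/6))` pairwise
compatible Euler tours.
-/

namespace Pool.Agent.Results.MP_fe131b_co.AsymptoticJackson

open Pool.Agent.H41.ET

/-- There is a constant `C` such that for every `d` every connected finite multigraph `G` with all
degrees even and at least `2 d` has `c ≥ 2 d - C d^(5/6)` Euler tours `w 0, …, w (c-1)` no two of
which have a transition in common. -/
theorem result : ∃ C : ℝ, 0 < C ∧ ∀ d : ℕ,
    ∀ (V H : Type) [Fintype V] [Nonempty V] [Fintype H] (G : Multigraph V H), G.Connected →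
      (∀ v, Even (G.degree v)) → (∀ v, 2 * d ≤ G.degree v) →
      ∃ (c : ℕ) (n : Fin c → ℕ) (w : ∀ j, ZMod (n j) → H),
        2 * (d : ℝ) - C * (d : ℝ) ^ (5 / 6 : ℝ) ≤ c ∧
        (∀ j, G.IsEulerTour (w j)) ∧
        ∀ i j, i ≠ j → Disjoint (G.transitions (w i)) (G.transitions (w j)) := by
  have hgk : S_GK := Pool.Agent.H16.ET.GK.gk_facts
  exact strong_thm
    (Pool.Agent.H335.ETm.main hgk Pool.Agent.H870.ET.star (Pool.Agent.H484.ET.assign hgk))
    (Pool.Agent.H224.ET.pi hgk Pool.Agent.H254.ET.cntA Pool.Agent.H105.ETB.cntB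
      Pool.Agent.H299.ET.cntC Pool.Agent.H553.ET.grp)
    res Pool.Agent.H769.ET.param2 Pool.Agent.H546.ET.glob Pool.Agent.H670.ET.walk

end Pool.Agent.Results.MP_fe131b_co.AsymptoticJackson
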